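import Mathlib
import Pool.Agent.Helper53.R4.Frame

/-!
# The two-way lemma

If planting does not make rectangles much less probable, then it does not make the event that the
sum of the votes of a conversation is positive much more probable.
-/

set_option autoImplicit false

namespace Pool.Agent.Helper95.R4

open Finset hiding dens
open Pool.Agent.Helper5.RV Pool.Agent.Helper53.R4

theorem ent {A z : ℝ} (hA : 0 < A) (hz : 0 ≤ z) :
    z * Real.log (1 / z) ≤ z * Real.log (1 / A) + A - z := by
  rcases hz.eq_or_lt with h | h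
  · subst h
    simp only [zero_mul, zero_add, sub_zero]
    exact hA.le
  · have h1 : Real.log (1 / z) = Real.log (1 / A) + Real.log (A / z) := by
      rw [← Real.log_mul (by positivity) (by positivity)]
      congr 1
      field_simp
    have h2 : Real.log (A / z) ≤ A / z - 1 := Real.log_le_sub_one_of_pos (by positivity)
    have h3 : z * Real.log (A / z) ≤ z * (A / z - 1) := mul_le_mul_of_nonneg_left h2 hz
    have h4 : z * (A / z - 1) = A - z := by field_simp
    rw [h1, mul_add]
    linarith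

theorem ent_le {s z : ℝ} (hs : 0 < s) (hs1 : s ≤ 1) (hz : 0 ≤ z) (hzs : z ≤ s) :
    z * Real.log (1 / z) ≤ s * (Real.log (1 / s) + 1) := by
  have h1 := ent hs hz
  have h2 : 0 ≤ Real.log (1 / s) := Real.log_nonneg (by rw [le_div_iff₀ hs]; linarith)
  have h3 := mul_le_mul_of_nonneg_right hzs h2
  linarith

theorem sum_ind_mem {X : Type} [Fintype X] (A : Finset X) : ∑ x, ind (x ∈ A) = (A.card : ℝ) := by
  rw [← sum_subset (subset_univ A) (fun x _ hx => ind_of_not hx),
    sum_congr rfl (fun x hx => ind_of hx), sum_const, nsmul_eq_mul, mul_one]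

variable {J K R M : Type} [Fintype J] [DecidableEq J] [Fintype K] [DecidableEq K] [Fintype R]
  [Fintype M]

/-- the mean over the planted pairs -/
noncomputable def PL (π : J → M → R) (φ : (K → R) → (J × K → M) → ℝ) : ℝ :=
  (∑ u : K → R, ∑ y : J × K → M, ∑ p : J × K, φ (Function.update u p.2 (π p.1 (y p))) y) /
    (Fintype.card (K → R) * Fintype.card (J × K → M) * (Fintype.card J * Fintype.card K))

/-- the mean -/
noncomputable def PR {U Y : Type} [Fintype U] [Fintype Y] (φ : U → Y → ℝ) : ℝ :=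
  (∑ u, ∑ y, φ u y) / (Fintype.card U * Fintype.card Y)

theorem PL_mono (π : J → M → R) {φ ψ : (K → R) → (J × K → M) → ℝ} (h : ∀ u y, φ u y ≤ ψ u y) :
    PL π φ ≤ PL π ψ := by
  unfold PL
  exact div_le_div_of_nonneg_right (sum_le_sum fun u _ => sum_le_sum fun y _ =>
    sum_le_sum fun p _ => h _ _) (by positivity)

theorem PR_mono {U Y : Type} [Fintype U] [Fintype Y] {φ ψ : U → Y → ℝ}
    (h : ∀ u y, φ u y ≤ ψ u y) : PR φ ≤ PR ψ := by
  unfold PR
  exact div_le_div_of_nonneg_right (sum_le_sum fun u _ => sum_le_sum fun y _ => h _ _)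
    (by positivity)

theorem PL_sum {ι : Type} (s : Finset ι) (π : J → M → R)
    (φ : ι → (K → R) → (J × K → M) → ℝ) :
    PL π (fun u y => ∑ i ∈ s, φ i u y) = ∑ i ∈ s, PL π (φ i) := by
  unfold PL
  rw [← sum_div]
  congr 1
  rw [sum_comm (s := s)]
  refine sum_congr rfl fun u _ => ?_
  rw [sum_comm (s := s)]
  refine sum_congr rfl fun y _ => ?_
  rw [sum_comm (s := s)]

theorem PR_sum {U Y ι : Type} [Fintype U] [Fintype Y] (s : Finset ι) (φ : ι → U → Y → ℝ) :
    PR (fun u y => ∑ i ∈ s, φ i u y) = ∑ i ∈ s, PR (φ i) := by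
  unfold PR
  rw [← sum_div]
  congr 1
  rw [sum_comm (s := s)]
  refine sum_congr rfl fun u _ => ?_
  rw [sum_comm (s := s)]

theorem PL_nonneg (π : J → M → R) {φ : (K → R) → (J × K → M) → ℝ} (h : ∀ u y, 0 ≤ φ u y) :
    0 ≤ PL π φ := by
  unfold PL
  exact div_nonneg (sum_nonneg fun u _ => sum_nonneg fun y _ => sum_nonneg fun p _ => h _ _)
    (by positivity)

theorem ds_nonneg {U : Type} [Fintype U] (S : Finset U) : 0 ≤ dens S := by
  unfold dens; positivity

theorem ds_mono {U : Type} [Fintype U] {S S' : Finset U} (h : S ⊆ S') : dens S ≤ dens S' := by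
  unfold dens
  exact div_le_div_of_nonneg_right (Nat.cast_le.2 (card_le_card h)) (by positivity)

theorem ds_pos {U : Type} [Fintype U] {S : Finset U} (h : S.Nonempty) : 0 < dens S := by
  unfold dens
  have h1 : 0 < S.card := card_pos.2 h
  have h2 : 0 < Fintype.card U := lt_of_lt_of_le h1 (card_le_univ S)
  positivity

theorem ds_le_one {U : Type} [Fintype U] (S : Finset U) : dens S ≤ 1 := by
  unfold dens
  rcases Nat.eq_zero_or_pos (Fintype.card U) with h | h
  · rw [h]; simp
  · rw [div_le_one (by exact_mod_cast h)]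
    exact_mod_cast card_le_univ S

theorem ds_empty {U : Type} [Fintype U] : dens (∅ : Finset U) = 0 := by
  unfold dens; simp

/-- the error term -/
noncomputable def er (e0 c1 c2 : ℝ) (q a b : ℕ) (s t : ℝ) : ℝ :=
  s * t * (e0 + 1 / q + c1 * (a * Real.log 2 + Real.log (1 / s) + 1) +
    c2 * (b * Real.log 2 + Real.log (1 / t) + Real.log q))

/-- the base case: a staircase -/
theorem stair {π : J → M → R} {e0 c1 c2 : ℝ} (hR : RectGood J K π e0 c1 c2) (h0 : 0 ≤ e0)
    (h1 : 0 ≤ c1) (h2 : 0 ≤ c2) {q : ℕ} (hq : 3 ≤ q) (a b : ℕ) (v : (K → R) → ℝ)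
    (t : (J × K → M) → ℝ) (S : Finset (K → R)) (T : Finset (J × K → M)) (hS : S.Nonempty)
    (hT : T.Nonempty) :
    PR (fun u y => ind (v u + t y ≤ 0 ∧ u ∈ S ∧ y ∈ T)) - er e0 c1 c2 q a b (dens S) (dens T) ≤
      PL π (fun u y => ind (v u + t y ≤ 0 ∧ u ∈ S ∧ y ∈ T)) := by
  classical
  have hS0 : 0 < S.card := card_pos.2 hS
  have hT0 : 0 < T.card := card_pos.2 hT
  have hU0 : 0 < Fintype.card (K → R) := lt_of_lt_of_le hS0 (card_le_univ S)
  have hY0 : 0 < Fintype.card (J × K → M) := lt_of_lt_of_le hT0 (card_le_univ T)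
  have hUr : (0 : ℝ) < Fintype.card (K → R) := by exact_mod_cast hU0
  have hYr : (0 : ℝ) < Fintype.card (J × K → M) := by exact_mod_cast hY0
  -- sections
  let Z : (J × K → M) → Finset (K → R) := fun y => S.filter fun u => v u + t y ≤ 0
  have hZS : ∀ y, Z y ⊆ S := fun y => filter_subset _ _
  have hchain : ∀ y y', (Z y).card ≤ (Z y').card → Z y ⊆ Z y' := by
    intro y y' hc
    rcases le_total (t y) (t y') with h | h
    · have hsub : Z y' ⊆ Z y := by
        intro u hu
        rw [mem_filter] at hu ⊢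
        exact ⟨hu.1, by linarith [hu.2]⟩
      rw [eq_of_subset_of_card_le hsub hc]
    · intro u hu
      rw [mem_filter] at hu ⊢
      exact ⟨hu.1, by linarith [hu.2]⟩
  let cl : (J × K → M) → ℕ := fun y => q * (Z y).card / S.card
  have hclq : ∀ y, cl y ≤ q := by
    intro y
    refine Nat.div_le_of_le_mul ?_
    rw [mul_comm S.card q]
    exact Nat.mul_le_mul_left _ (card_le_card (hZS y))
  let Tc : ℕ → Finset (J × K → M) := fun i => T.filter fun y => cl y = i
  have hmin : ∀ i, ∃ Si : Finset (K → R), Si ⊆ S ∧ (∀ y ∈ Tc i, Si ⊆ Z y ∧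
      q * (Z y).card ≤ q * Si.card + S.card) ∧ (1 ≤ i → (Tc i).Nonempty → Si.Nonempty) := by
    intro i
    rcases (Tc i).eq_empty_or_nonempty with he | hne
    · exact ⟨∅, empty_subset _, fun y hy => by rw [he] at hy; exact absurd hy (notMem_empty _),
        fun _ h => by rw [he] at h; exact absurd h not_nonempty_empty⟩
    · obtain ⟨y0, hy0, hm⟩ := exists_min_image (Tc i) (fun y => (Z y).card) hne
      have hcl0 : cl y0 = i := (mem_filter.1 hy0).2
      have hlow : i * S.card ≤ q * (Z y0).card := by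
        rw [← hcl0]
        exact Nat.div_mul_le_self _ _
      refine ⟨Z y0, hZS y0, fun y hy => ⟨hchain _ _ (hm y hy), ?_⟩, fun h1i _ => ?_⟩
      · have hcl : cl y = i := (mem_filter.1 hy).2
        have hup : q * (Z y).card < (i + 1) * S.card := by
          rw [← hcl]
          exact Nat.lt_mul_of_div_lt (Nat.lt_succ_self _) hS0
        have : (i + 1) * S.card = i * S.card + S.card := by ring
        omega
      · rw [← card_pos]
        by_contra hc
        have h5 : (Z y0).card = 0 := by omega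
        rw [h5, mul_zero] at hlow
        have : 0 < i * S.card := Nat.mul_pos h1i hS0
        omega
  choose Sc hSc1 hSc2 hSc3 using hmin
  -- the rectangles lie in the set
  have hle1 : ∀ u y, ∑ i ∈ Icc 1 q, ind (u ∈ Sc i ∧ y ∈ Tc i) ≤
      ind (v u + t y ≤ 0 ∧ u ∈ S ∧ y ∈ T) := by
    intro u y
    by_cases hy : y ∈ T ∧ 1 ≤ cl y
    · have hmemI : cl y ∈ Icc 1 q := mem_Icc.2 ⟨hy.2, hclq y⟩
      rw [← add_sum_erase _ _ hmemI, sum_eq_zero, add_zero]
      · refine ind_mono fun hh => ?_
        have h5 := (hSc2 (cl y) y hh.2).1 hh.1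
        rw [mem_filter] at h5
        exact ⟨h5.2, h5.1, hy.1⟩
      · intro i hi
        refine ind_of_not fun hh => ?_
        have h5 := (mem_filter.1 hh.2).2
        exact (mem_erase.1 hi).1 h5.symm
    · rw [sum_eq_zero]
      · exact ind_nonneg _
      · intro i hi
        refine ind_of_not fun hh => ?_
        have h5 := mem_filter.1 hh.2
        refine hy ⟨h5.1, ?_⟩
        rw [h5.2]
        exact (mem_Icc.1 hi).1
  -- the measure of the set
  have hcount : ∀ (S' : Finset (K → R)) (T' : Finset (J × K → M)),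
      ∑ u : K → R, ∑ y : J × K → M, ind (u ∈ S' ∧ y ∈ T') = (S'.card : ℝ) * T'.card := by
    intro S' T'
    have h5 : ∀ u y, ind (u ∈ S' ∧ y ∈ T') = ind (u ∈ S') * ind (y ∈ T') := by
      intro u y
      by_cases hu : u ∈ S'
      · by_cases hy : y ∈ T'
        · rw [ind_of ⟨hu, hy⟩, ind_of hu, ind_of hy, one_mul]
        · rw [ind_of_not fun hh => hy hh.2, ind_of_not hy, mul_zero]
      · rw [ind_of_not fun hh => hu hh.1, ind_of_not hu, zero_mul]
    simp_rw [h5, ← mul_sum, sum_ind_mem, ← sum_mul, sum_ind_mem]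
  have hmeas : PR (fun u y => ind (v u + t y ≤ 0 ∧ u ∈ S ∧ y ∈ T)) ≤
      ∑ i ∈ Icc 1 q, dens (Sc i) * dens (Tc i) + dens S * dens T * (1 / q) := by
    have hq0 : (0 : ℝ) < q := by exact_mod_cast (by omega : 0 < q)
    have h5 : ∀ y, ∑ u, ind (v u + t y ≤ 0 ∧ u ∈ S ∧ y ∈ T) ≤
        ∑ i ∈ Icc 1 q, (Sc i).card * ind (y ∈ Tc i) + (S.card : ℝ) / q * ind (y ∈ T) := by
      intro y
      by_cases hy : y ∈ T
      · have h6 : ∑ u, ind (v u + t y ≤ 0 ∧ u ∈ S ∧ y ∈ T) = ((Z y).card : ℝ) := by
          have : ∀ u, ind (v u + t y ≤ 0 ∧ u ∈ S ∧ y ∈ T) = ind (u ∈ Z y) := by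
            intro u
            by_cases hu : u ∈ Z y
            · rw [ind_of hu, ind_of ⟨(mem_filter.1 hu).2, (mem_filter.1 hu).1, hy⟩]
            · rw [ind_of_not hu, ind_of_not fun hh => hu (mem_filter.2 ⟨hh.2.1, hh.1⟩)]
          simp_rw [this]
          exact sum_ind_mem _
        rw [h6, ind_of hy, mul_one]
        by_cases hc : 1 ≤ cl y
        · have hmemI : cl y ∈ Icc 1 q := mem_Icc.2 ⟨hc, hclq y⟩
          have hyc : y ∈ Tc (cl y) := mem_filter.2 ⟨hy, rfl⟩
          have h7 : ((Sc (cl y)).card : ℝ) ≤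
              ∑ i ∈ Icc 1 q, ((Sc i).card : ℝ) * ind (y ∈ Tc i) := by
            have := single_le_sum (f := fun i => ((Sc i).card : ℝ) * ind (y ∈ Tc i))
              (fun i _ => mul_nonneg (Nat.cast_nonneg _) (ind_nonneg _)) hmemI
            simpa [ind_of hyc] using this
          have h8 : (q : ℝ) * (Z y).card ≤ q * (Sc (cl y)).card + S.card := by
            exact_mod_cast (hSc2 (cl y) y hyc).2
          have h9 : ((Z y).card : ℝ) ≤ (Sc (cl y)).card + (S.card : ℝ) / q := by
            rw [← sub_le_iff_le_add', le_div_iff₀ hq0]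
            linarith
          linarith
        · have h7 : cl y = 0 := by omega
          have h8 : q * (Z y).card < S.card := by
            have := Nat.lt_of_div_eq_zero hS0 h7
            exact this
          have h9 : ((Z y).card : ℝ) ≤ (S.card : ℝ) / q := by
            rw [le_div_iff₀ hq0, mul_comm]
            exact_mod_cast h8.le
          have h10 : 0 ≤ ∑ i ∈ Icc 1 q, ((Sc i).card : ℝ) * ind (y ∈ Tc i) :=
            sum_nonneg fun i _ => mul_nonneg (Nat.cast_nonneg _) (ind_nonneg _)
          linarith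
      · rw [sum_eq_zero fun u _ => ind_of_not fun hh => hy hh.2.2]
        exact add_nonneg (sum_nonneg fun i _ => mul_nonneg (Nat.cast_nonneg _) (ind_nonneg _))
          (mul_nonneg (by positivity) (ind_nonneg _))
    unfold PR
    rw [div_le_iff₀ (mul_pos hUr hYr), sum_comm]
    refine (sum_le_sum fun y _ => h5 y).trans (le_of_eq ?_)
    rw [sum_add_distrib, sum_comm, ← mul_sum, sum_ind_mem]
    simp_rw [← mul_sum, sum_ind_mem]
    unfold dens
    rw [add_mul, sum_mul]
    congr 1
    · refine sum_congr rfl fun i _ => ?_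
      field_simp
    · field_simp
  -- every rectangle
  have hrect : ∀ i ∈ Icc 1 q, dens (Sc i) * dens (Tc i) * (1 - e0) -
      c1 * (dens (Tc i) * (dens (Sc i) * Real.log (1 / dens (Sc i)))) -
      c2 * (dens (Sc i) * (dens (Tc i) * Real.log (1 / dens (Tc i)))) ≤
      PL π (fun u y => ind (u ∈ Sc i ∧ y ∈ Tc i)) := by
    intro i hi
    rcases (Tc i).eq_empty_or_nonempty with he | hne
    · rw [he, ds_empty]
      simp only [mul_zero, zero_mul, sub_zero]
      exact PL_nonneg _ fun _ _ => ind_nonneg _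
    · have h5 := hR (Sc i) (Tc i) (hSc3 i (mem_Icc.1 hi).1 hne) hne
      refine le_trans (le_of_eq ?_) h5
      ring
  have hs1 := ds_le_one S
  have ht1 := ds_le_one T
  have hsp := ds_pos hS
  have htp := ds_pos hT
  have hsumT : ∑ i ∈ Icc 1 q, dens (Tc i) ≤ dens T := by
    unfold dens
    rw [← sum_div]
    refine div_le_div_of_nonneg_right ?_ hYr.le
    rw [← Nat.cast_sum]
    refine Nat.cast_le.2 ?_
    rw [← card_biUnion]
    · refine card_le_card fun y hy => ?_
      rw [mem_biUnion] at hy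
      obtain ⟨i, -, hi⟩ := hy
      exact (mem_filter.1 hi).1
    · intro i _ j _ hij
      show Disjoint (Tc i) (Tc j)
      rw [disjoint_left]
      intro y hy hy'
      exact hij ((mem_filter.1 hy).2.symm.trans (mem_filter.1 hy').2)
  have hsi : ∀ i, dens (Sc i) ≤ dens S := fun i => ds_mono (hSc1 i)
  have hq0 : (0 : ℝ) < q := by exact_mod_cast (by omega : 0 < q)
  have hent1 : ∑ i ∈ Icc 1 q, dens (Tc i) * (dens (Sc i) * Real.log (1 / dens (Sc i))) ≤
      dens T * (dens S * (Real.log (1 / dens S) + 1)) := by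
    have hB : 0 ≤ dens S * (Real.log (1 / dens S) + 1) := by
      have : 0 ≤ Real.log (1 / dens S) := Real.log_nonneg (by rw [le_div_iff₀ hsp]; linarith)
      positivity
    calc _ ≤ ∑ i ∈ Icc 1 q, dens (Tc i) * (dens S * (Real.log (1 / dens S) + 1)) :=
          sum_le_sum fun i _ => mul_le_mul_of_nonneg_left
            (ent_le hsp hs1 (ds_nonneg _) (hsi i)) (ds_nonneg _)
      _ = (∑ i ∈ Icc 1 q, dens (Tc i)) * (dens S * (Real.log (1 / dens S) + 1)) := by
          rw [sum_mul]
      _ ≤ _ := mul_le_mul_of_nonneg_right hsumT hB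
  have hent2 : ∑ i ∈ Icc 1 q, dens (Sc i) * (dens (Tc i) * Real.log (1 / dens (Tc i))) ≤
      dens S * (dens T * (Real.log (1 / dens T) + Real.log q)) := by
    have hlogT : ∀ i, 0 ≤ dens (Tc i) * Real.log (1 / dens (Tc i)) := by
      intro i
      rcases (ds_nonneg (Tc i)).eq_or_lt with h | h
      · rw [← h, zero_mul]
      · refine mul_nonneg h.le (Real.log_nonneg ?_)
        rw [le_div_iff₀ h]
        linarith [ds_le_one (Tc i)]
    have hA : 0 < dens T / q := by positivity
    have hlog : Real.log (1 / (dens T / q)) = Real.log (1 / dens T) + Real.log q := by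
      rw [← Real.log_mul (by positivity) (by positivity)]
      congr 1
      field_simp
    have hlog1 : 1 ≤ Real.log (1 / dens T) + Real.log q := by
      have h5 : 0 ≤ Real.log (1 / dens T) :=
        Real.log_nonneg (by rw [le_div_iff₀ htp]; linarith)
      have h6 : (1 : ℝ) ≤ Real.log q := by
        rw [Real.le_log_iff_exp_le hq0]
        have : Real.exp 1 < 3 := by
          have := Real.exp_one_lt_d9
          linarith
        have h7 : (3 : ℝ) ≤ q := by exact_mod_cast hq
        linarith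
      linarith
    calc _ ≤ ∑ i ∈ Icc 1 q, dens S * (dens (Tc i) * Real.log (1 / dens (Tc i))) :=
          sum_le_sum fun i _ => mul_le_mul_of_nonneg_right (hsi i) (hlogT i)
      _ = dens S * ∑ i ∈ Icc 1 q, dens (Tc i) * Real.log (1 / dens (Tc i)) := by rw [mul_sum]
      _ ≤ dens S * ∑ i ∈ Icc 1 q, (dens (Tc i) * (Real.log (1 / dens T) + Real.log q) +
            dens T / q - dens (Tc i)) := by
          refine mul_le_mul_of_nonneg_left (sum_le_sum fun i _ => ?_) hsp.le
          rw [← hlog]
          exact ent hA (ds_nonneg _)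
      _ ≤ _ := by
          refine mul_le_mul_of_nonneg_left ?_ hsp.le
          rw [sum_sub_distrib, sum_add_distrib, ← sum_mul, sum_const, Nat.card_Icc, nsmul_eq_mul]
          have h5 : ((q + 1 - 1 : ℕ) : ℝ) * (dens T / q) = dens T := by
            rw [Nat.add_sub_cancel]
            field_simp
          rw [h5]
          nlinarith
  -- together
  have hPL : PL π (fun u y => ∑ i ∈ Icc 1 q, ind (u ∈ Sc i ∧ y ∈ Tc i)) ≤
      PL π (fun u y => ind (v u + t y ≤ 0 ∧ u ∈ S ∧ y ∈ T)) := PL_mono π hle1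
  rw [PL_sum] at hPL
  have hsumR := sum_le_sum hrect
  rw [sum_sub_distrib, sum_sub_distrib, ← sum_mul, ← mul_sum, ← mul_sum] at hsumR
  have hst : ∑ i ∈ Icc 1 q, dens (Sc i) * dens (Tc i) ≤ dens S * dens T := by
    calc _ ≤ ∑ i ∈ Icc 1 q, dens S * dens (Tc i) :=
          sum_le_sum fun i _ => mul_le_mul_of_nonneg_right (hsi i) (ds_nonneg _)
      _ = dens S * ∑ i ∈ Icc 1 q, dens (Tc i) := by rw [mul_sum]
      _ ≤ _ := mul_le_mul_of_nonneg_left hsumT hsp.le
  have hst0 : 0 ≤ dens S * dens T := by positivity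
  have e1 := mul_le_mul_of_nonneg_left hst h0
  have e2 := mul_le_mul_of_nonneg_left hent1 h1
  have e3 := mul_le_mul_of_nonneg_left hent2 h2
  have hlog2 : 0 ≤ Real.log 2 := Real.log_nonneg (by norm_num)
  have e4 : 0 ≤ dens S * dens T * (c1 * (a * Real.log 2)) := by positivity
  have e5 : 0 ≤ dens S * dens T * (c2 * (b * Real.log 2)) := by positivity
  have e6 : er e0 c1 c2 q a b (dens S) (dens T) = e0 * (dens S * dens T) +
      dens S * dens T * (1 / q) + c1 * (dens T * (dens S * (Real.log (1 / dens S) + 1))) +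
      c2 * (dens S * (dens T * (Real.log (1 / dens T) + Real.log q))) +
      dens S * dens T * (c1 * (a * Real.log 2)) + dens S * dens T * (c2 * (b * Real.log 2)) := by
    unfold er
    ring
  rw [e6]
  linarith

theorem ind_split {P : Bool → Prop} {Q : Bool → Prop} (b : Bool) (hQ : ∀ i, Q i → i = b) :
    ∑ i : Bool, ind (P i ∧ Q i) = ind (P b ∧ Q b) := by
  rw [Fintype.sum_bool]
  cases b
  · rw [ind_of_not (p := P true ∧ Q true) fun h => by simpa using hQ true h.2, zero_add]
  · rw [ind_of_not (p := P false ∧ Q false) fun h => by simpa using hQ false h.2, add_zero]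

/-- the inductive statement -/
theorem two_way_aux {π : J → M → R} {e0 c1 c2 : ℝ} (hR : RectGood J K π e0 c1 c2) (h0 : 0 ≤ e0)
    (h1 : 0 ≤ c1) (h2 : 0 ≤ c2) {q : ℕ} (hq : 3 ≤ q) {a b : ℕ}
    {F : (K → R) → (J × K → M) → ℝ} (hF : TC a b F) :
    ∀ (S : Finset (K → R)) (T : Finset (J × K → M)),
      PR (fun u y => ind (F u y ≤ 0 ∧ u ∈ S ∧ y ∈ T)) - er e0 c1 c2 q a b (dens S) (dens T) ≤
      PL π (fun u y => ind (F u y ≤ 0 ∧ u ∈ S ∧ y ∈ T)) := by
  classical
  have hempty : ∀ (G : (K → R) → (J × K → M) → ℝ) (a b : ℕ) (S : Finset (K → R))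
      (T : Finset (J × K → M)), ¬ (S.Nonempty ∧ T.Nonempty) →
      PR (fun u y => ind (G u y ≤ 0 ∧ u ∈ S ∧ y ∈ T)) - er e0 c1 c2 q a b (dens S) (dens T) ≤
      PL π (fun u y => ind (G u y ≤ 0 ∧ u ∈ S ∧ y ∈ T)) := by
    intro G a b S T hne
    have h3 : er e0 c1 c2 q a b (dens S) (dens T) = 0 := by
      unfold er
      by_cases hS : S.Nonempty
      · have hT : T = ∅ := not_nonempty_iff_eq_empty.1 fun hT => hne ⟨hS, hT⟩
        rw [hT, ds_empty, mul_zero, zero_mul]
      · rw [not_nonempty_iff_eq_empty.1 hS, ds_empty, zero_mul, zero_mul]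
    have h4 : ∀ u y, ind (G u y ≤ 0 ∧ u ∈ S ∧ y ∈ T) = 0 := fun u y =>
      ind_of_not fun hh => hne ⟨⟨u, hh.2.1⟩, ⟨y, hh.2.2⟩⟩
    rw [h3, sub_zero]
    simp_rw [h4]
    unfold PR PL
    simp
  induction hF with
  | @vote a b v t =>
    intro S T
    by_cases hne : S.Nonempty ∧ T.Nonempty
    · exact stair hR h0 h1 h2 hq a b v t S T hne.1 hne.2
    · exact hempty _ a b S T hne
  | @alice a b p F _ ih =>
    intro S T
    by_cases hne : S.Nonempty ∧ T.Nonempty
    swap
    · exact hempty _ (a + 1) b S T hne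
    have hpt : ∀ u y, ind (F (p u) u y ≤ 0 ∧ u ∈ S ∧ y ∈ T) =
        ∑ i ∈ (univ : Finset Bool), ind (F i u y ≤ 0 ∧ u ∈ S.filter (fun u => p u = i) ∧ y ∈ T) := by
      intro u y
      rw [ind_split (P := fun i => F i u y ≤ 0)
        (Q := fun i => u ∈ S.filter (fun u => p u = i) ∧ y ∈ T) (p u)
        (fun i hi => ((mem_filter.1 hi.1).2).symm)]
      by_cases hh : F (p u) u y ≤ 0 ∧ u ∈ S ∧ y ∈ T
      · rw [ind_of hh, ind_of ⟨hh.1, mem_filter.2 ⟨hh.2.1, rfl⟩, hh.2.2⟩]
      · rw [ind_of_not hh, ind_of_not fun h => hh ⟨h.1, (mem_filter.1 h.2.1).1, h.2.2⟩]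
    simp_rw [hpt]
    rw [PR_sum, PL_sum, Fintype.sum_bool, Fintype.sum_bool]
    have i1 := ih true (S.filter fun u => p u = true) T
    have i0 := ih false (S.filter fun u => p u = false) T
    have hd : dens (S.filter fun u => p u = true) + dens (S.filter fun u => p u = false) =
        dens S := by
      unfold dens
      rw [← add_div, ← Nat.cast_add]
      congr 2
      have h5 : (S.filter fun u => p u = false) = S.filter fun u => ¬ p u = true := by
        refine filter_congr fun u _ => ?_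
        simp
      rw [h5]
      exact card_filter_add_card_filter_not _
    have hsp := ds_pos hne.1
    have htp := ds_pos hne.2
    have n1 := ds_nonneg (S.filter fun u => p u = true)
    have n0 := ds_nonneg (S.filter fun u => p u = false)
    have g1 := ent (half_pos hsp) n1
    have g0 := ent (half_pos hsp) n0
    have hlog : Real.log (1 / (dens S / 2)) = Real.log (1 / dens S) + Real.log 2 := by
      rw [← Real.log_mul (by positivity) (by norm_num)]
      congr 1
      field_simp
    rw [hlog] at g1 g0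
    obtain ⟨s1, hs1⟩ : ∃ z, z = dens (S.filter fun u => p u = true) := ⟨_, rfl⟩
    obtain ⟨s0, hs0⟩ : ∃ z, z = dens (S.filter fun u => p u = false) := ⟨_, rfl⟩
    obtain ⟨s, hs⟩ : ∃ z, z = dens S := ⟨_, rfl⟩
    obtain ⟨t, ht⟩ : ∃ z, z = dens T := ⟨_, rfl⟩
    rw [← hs1] at i1 n1 g1 hd
    rw [← hs0] at i0 n0 g0 hd
    rw [← hs] at hsp g1 g0 hd
    rw [← ht] at htp i1 i0
    rw [← hs, ← ht]
    have key : er e0 c1 c2 q a b s1 t + er e0 c1 c2 q a b s0 t ≤
        er e0 c1 c2 q (a + 1) b s t := by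
      unfold er
      have g2 : s1 * Real.log (1 / s1) + s0 * Real.log (1 / s0) ≤
          s * (Real.log (1 / s) + Real.log 2) := by
        have : s1 * (Real.log (1 / s) + Real.log 2) + s0 * (Real.log (1 / s) + Real.log 2) =
            s * (Real.log (1 / s) + Real.log 2) := by rw [← hd]; ring
        linarith
      have g3 := mul_le_mul_of_nonneg_left g2 (mul_nonneg h1 htp.le)
      push_cast
      subst hd
      nlinarith
    linarith
  | @bob a b p F _ ih =>
    intro S T
    by_cases hne : S.Nonempty ∧ T.Nonempty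
    swap
    · exact hempty _ a (b + 1) S T hne
    have hpt : ∀ u y, ind (F (p y) u y ≤ 0 ∧ u ∈ S ∧ y ∈ T) =
        ∑ i ∈ (univ : Finset Bool), ind (F i u y ≤ 0 ∧ u ∈ S ∧ y ∈ T.filter (fun y => p y = i)) := by
      intro u y
      rw [ind_split (P := fun i => F i u y ≤ 0)
        (Q := fun i => u ∈ S ∧ y ∈ T.filter (fun y => p y = i)) (p y)
        (fun i hi => ((mem_filter.1 hi.2).2).symm)]
      by_cases hh : F (p y) u y ≤ 0 ∧ u ∈ S ∧ y ∈ T
      · rw [ind_of hh, ind_of ⟨hh.1, hh.2.1, mem_filter.2 ⟨hh.2.2, rfl⟩⟩]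
      · rw [ind_of_not hh, ind_of_not fun h => hh ⟨h.1, h.2.1, (mem_filter.1 h.2.2).1⟩]
    simp_rw [hpt]
    rw [PR_sum, PL_sum, Fintype.sum_bool, Fintype.sum_bool]
    have i1 := ih true S (T.filter fun y => p y = true)
    have i0 := ih false S (T.filter fun y => p y = false)
    have hd : dens (T.filter fun y => p y = true) + dens (T.filter fun y => p y = false) =
        dens T := by
      unfold dens
      rw [← add_div, ← Nat.cast_add]
      congr 2
      have h5 : (T.filter fun y => p y = false) = T.filter fun y => ¬ p y = true := by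
        refine filter_congr fun y _ => ?_
        simp
      rw [h5]
      exact card_filter_add_card_filter_not _
    have hsp := ds_pos hne.1
    have htp := ds_pos hne.2
    have n1 := ds_nonneg (T.filter fun y => p y = true)
    have n0 := ds_nonneg (T.filter fun y => p y = false)
    have g1 := ent (half_pos htp) n1
    have g0 := ent (half_pos htp) n0
    have hlog : Real.log (1 / (dens T / 2)) = Real.log (1 / dens T) + Real.log 2 := by
      rw [← Real.log_mul (by positivity) (by norm_num)]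
      congr 1
      field_simp
    rw [hlog] at g1 g0
    obtain ⟨s1, hs1⟩ : ∃ z, z = dens (T.filter fun y => p y = true) := ⟨_, rfl⟩
    obtain ⟨s0, hs0⟩ : ∃ z, z = dens (T.filter fun y => p y = false) := ⟨_, rfl⟩
    obtain ⟨s, hs⟩ : ∃ z, z = dens T := ⟨_, rfl⟩
    obtain ⟨t, ht⟩ : ∃ z, z = dens S := ⟨_, rfl⟩
    rw [← hs1] at i1 n1 g1 hd
    rw [← hs0] at i0 n0 g0 hd
    rw [← hs] at htp g1 g0 hd
    rw [← ht] at hsp i1 i0
    rw [← hs, ← ht]
    have key : er e0 c1 c2 q a b t s1 + er e0 c1 c2 q a b t s0 ≤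
        er e0 c1 c2 q a (b + 1) t s := by
      unfold er
      have g2 : s1 * Real.log (1 / s1) + s0 * Real.log (1 / s0) ≤
          s * (Real.log (1 / s) + Real.log 2) := by
        have : s1 * (Real.log (1 / s) + Real.log 2) + s0 * (Real.log (1 / s) + Real.log 2) =
            s * (Real.log (1 / s) + Real.log 2) := by rw [← hd]; ring
        linarith
      have g3 := mul_le_mul_of_nonneg_left g2 (mul_nonneg h2 hsp.le)
      push_cast
      subst hd
      nlinarith
    linarith

/-- **The two-way lemma.** -/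
theorem two_way [Nonempty J] [Nonempty K] [Nonempty R] [Nonempty M] {π : J → M → R}
    {e0 c1 c2 : ℝ} (hR : RectGood J K π e0 c1 c2)
    (h0 : 0 ≤ e0) (h1 : 0 ≤ c1) (h2 : 0 ≤ c2) {q : ℕ} (hq : 3 ≤ q) {a b : ℕ}
    {F : (K → R) → (J × K → M) → ℝ} (hF : TC a b F) :
    planted π (fun u y => 0 < F u y) - prob (fun u y => 0 < F u y) ≤
      e0 + 1 / q + c1 * (a * Real.log 2 + 1) + c2 * (b * Real.log 2 + Real.log q) := by
  classical
  have hU : (0 : ℝ) < Fintype.card (K → R) := by exact_mod_cast Fintype.card_pos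
  have hY : (0 : ℝ) < Fintype.card (J × K → M) := by exact_mod_cast Fintype.card_pos
  have hJ : (0 : ℝ) < Fintype.card J := by exact_mod_cast Fintype.card_pos
  have hK : (0 : ℝ) < Fintype.card K := by exact_mod_cast Fintype.card_pos
  have key := two_way_aux hR h0 h1 h2 hq hF univ univ
  have d1 : dens (univ : Finset (K → R)) = 1 := by
    unfold dens; rw [card_univ, div_self hU.ne']
  have d2 : dens (univ : Finset (J × K → M)) = 1 := by
    unfold dens; rw [card_univ, div_self hY.ne']
  rw [d1, d2] at key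
  simp only [mem_univ, and_true] at key
  have hcomp : ∀ u y, ind (F u y ≤ 0) = 1 - ind (0 < F u y) := by
    intro u y
    by_cases h : 0 < F u y
    · rw [ind_of h, ind_of_not (by linarith : ¬ F u y ≤ 0), sub_self]
    · rw [ind_of_not h, ind_of (not_lt.1 h), sub_zero]
  have e1 : PR (fun u y => ind (F u y ≤ 0)) = 1 - prob (fun u y => 0 < F u y) := by
    unfold PR prob
    simp_rw [hcomp, sum_sub_distrib, sum_const, card_univ, nsmul_eq_mul]
    field_simp
  have e2 : PL π (fun u y => ind (F u y ≤ 0)) = 1 - planted π (fun u y => 0 < F u y) := by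
    unfold PL planted
    simp_rw [hcomp, sum_sub_distrib, sum_const, card_univ, nsmul_eq_mul, Fintype.card_prod]
    push_cast
    field_simp
  rw [e1, e2] at key
  unfold er at key
  simp only [div_one, Real.log_one, add_zero, one_mul] at key
  linarith

end Pool.Agent.Helper95.R4
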