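import Mathlib
import Pool.Agent.Helper5.R4.Defs

/-!
# Conversations with one message of Alice and one message of Bob
-/

set_option autoImplicit false

namespace Pool.Agent.Helper95.R4

open Pool.Agent.Helper22.ETModel Pool.Agent.Helper8.VT Pool.Agent.Helper5.R4

/-- Bob sends `b` bits, Alice votes. -/
theorem bobSends {n : ℕ} (b : ℕ) (h : Wts n → Fin (2 ^ b)) (g : Wts n → Fin (2 ^ b) → ℝ) :
    ∃ P : Conv n 0 b, ∀ A C, P.eval A C = g A (h C) := by
  induction b with
  | zero =>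
    refine ⟨.vote (fun A => g A ⟨0, by norm_num⟩) (fun _ => 0), fun A C => ?_⟩
    have : h C = ⟨0, by norm_num⟩ := by
      apply Fin.ext
      have := (h C).isLt
      simp at this
      simp
    rw [this]
    simp [Conv.eval]
  | succ b ih =>
    have hlt : ∀ (z : Fin (2 ^ (b + 1))), (z : ℕ) % 2 ^ b < 2 ^ b :=
      fun z => Nat.mod_lt _ (by positivity)
    have hlt1 : ∀ (z : Fin (2 ^ b)), 2 ^ b + (z : ℕ) < 2 ^ (b + 1) := by
      intro z
      have := z.isLt
      rw [pow_succ]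
      omega
    have hlt0 : ∀ (z : Fin (2 ^ b)), (z : ℕ) < 2 ^ (b + 1) := by
      intro z
      have := z.isLt
      rw [pow_succ]
      omega
    obtain ⟨P1, hP1⟩ := ih (fun C => ⟨(h C : ℕ) % 2 ^ b, hlt _⟩)
      (fun A z => g A ⟨2 ^ b + (z : ℕ), hlt1 z⟩)
    obtain ⟨P0, hP0⟩ := ih (fun C => ⟨(h C : ℕ) % 2 ^ b, hlt _⟩)
      (fun A z => g A ⟨(z : ℕ), hlt0 z⟩)
    refine ⟨.bob (fun C => decide (2 ^ b ≤ (h C : ℕ))) (fun t => if t then P1 else P0),
      fun A C => ?_⟩
    by_cases hc : 2 ^ b ≤ (h C : ℕ)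
    · have e : (⟨2 ^ b + (h C : ℕ) % 2 ^ b, hlt1 ⟨(h C : ℕ) % 2 ^ b, hlt _⟩⟩ :
          Fin (2 ^ (b + 1))) = h C := by
        apply Fin.ext
        have h2 := (h C).isLt
        have h3 : (2 : ℕ) ^ (b + 1) = 2 ^ b * 2 := pow_succ _ _
        have : (h C : ℕ) % 2 ^ b = (h C : ℕ) - 2 ^ b := by
          rw [Nat.mod_eq_sub_mod hc, Nat.mod_eq_of_lt (by omega)]
        simp only
        omega
      have := hP1 A C
      simp only [e] at this
      simp only [Conv.eval, hc, decide_true, if_true]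
      exact this
    · have e : (⟨(h C : ℕ) % 2 ^ b, hlt0 ⟨(h C : ℕ) % 2 ^ b, hlt _⟩⟩ :
          Fin (2 ^ (b + 1))) = h C := by
        apply Fin.ext
        simp only
        exact Nat.mod_eq_of_lt (by omega)
      have := hP0 A C
      simp only [e] at this
      simp only [Conv.eval, hc, decide_false, Bool.false_eq_true, if_false]
      exact this

/-- Alice sends `a` bits, then a conversation that depends on her message. -/
theorem aliceSends {n b : ℕ} (a : ℕ) (h : Wts n → Fin (2 ^ a)) (Q : Fin (2 ^ a) → Conv n 0 b) :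
    ∃ P : Conv n a b, ∀ A C, P.eval A C = (Q (h A)).eval A C := by
  induction a with
  | zero =>
    refine ⟨Q ⟨0, by norm_num⟩, fun A C => ?_⟩
    have : h A = ⟨0, by norm_num⟩ := by
      apply Fin.ext
      have := (h A).isLt
      simp at this
      simp
    rw [this]
  | succ a ih =>
    have hlt : ∀ (z : Fin (2 ^ (a + 1))), (z : ℕ) % 2 ^ a < 2 ^ a :=
      fun z => Nat.mod_lt _ (by positivity)
    have hlt1 : ∀ (z : Fin (2 ^ a)), 2 ^ a + (z : ℕ) < 2 ^ (a + 1) := by
      intro z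
      have := z.isLt
      rw [pow_succ]
      omega
    have hlt0 : ∀ (z : Fin (2 ^ a)), (z : ℕ) < 2 ^ (a + 1) := by
      intro z
      have := z.isLt
      rw [pow_succ]
      omega
    obtain ⟨P1, hP1⟩ := ih (fun A => ⟨(h A : ℕ) % 2 ^ a, hlt _⟩)
      (fun z => Q ⟨2 ^ a + (z : ℕ), hlt1 z⟩)
    obtain ⟨P0, hP0⟩ := ih (fun A => ⟨(h A : ℕ) % 2 ^ a, hlt _⟩)
      (fun z => Q ⟨(z : ℕ), hlt0 z⟩)
    refine ⟨.alice (fun A => decide (2 ^ a ≤ (h A : ℕ))) (fun t => if t then P1 else P0),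
      fun A C => ?_⟩
    by_cases hc : 2 ^ a ≤ (h A : ℕ)
    · have e : (⟨2 ^ a + (h A : ℕ) % 2 ^ a, hlt1 ⟨(h A : ℕ) % 2 ^ a, hlt _⟩⟩ :
          Fin (2 ^ (a + 1))) = h A := by
        apply Fin.ext
        have h2 := (h A).isLt
        have h3 : (2 : ℕ) ^ (a + 1) = 2 ^ a * 2 := pow_succ _ _
        have : (h A : ℕ) % 2 ^ a = (h A : ℕ) - 2 ^ a := by
          rw [Nat.mod_eq_sub_mod hc, Nat.mod_eq_of_lt (by omega)]
        simp only
        omega
      have := hP1 A C
      simp only [e] at this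
      simp only [Conv.eval, hc, decide_true, if_true]
      exact this
    · have e : (⟨(h A : ℕ) % 2 ^ a, hlt0 ⟨(h A : ℕ) % 2 ^ a, hlt _⟩⟩ :
          Fin (2 ^ (a + 1))) = h A := by
        apply Fin.ext
        simp only
        exact Nat.mod_eq_of_lt (by omega)
      have := hP0 A C
      simp only [e] at this
      simp only [Conv.eval, hc, decide_false, Bool.false_eq_true, if_false]
      exact this

/-- Alice sends `a` bits, Bob answers with `b` bits, Alice votes. -/
theorem twoMessages {n : ℕ} (a b : ℕ) (hA : Wts n → Fin (2 ^ a))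
    (hB : Fin (2 ^ a) → Wts n → Fin (2 ^ b)) (g : Wts n → Fin (2 ^ b) → ℝ) :
    ∃ P : Conv n a b, ∀ A C, P.eval A C = g A (hB (hA A) C) := by
  choose Q hQ using fun z => bobSends b (hB z) g
  obtain ⟨P, hP⟩ := aliceSends a hA Q
  exact ⟨P, fun A C => by rw [hP, hQ]⟩

end Pool.Agent.Helper95.R4
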