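import Mathlib
import Pool.Agent.Helper95.R4.Conv
import Pool.Agent.Helper95.RV.Upper
import Pool.Agent.Helper62.EV.Infl
import Pool.Agent.Helper8.UV.Defs

/-!
# Hash values: the converse

Alice sends a random hash value of `s` bits of the weight between `c` and every vertex `k` of class
`2`; Bob answers with the values that `w c k` has to avoid and that have this hash value.
-/

set_option autoImplicit false
set_option linter.constructorNameAsVariable false

namespace Pool.Agent.Helper95.R4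

open Finset Pool.Agent.Helper22.ETModel Pool.Agent.Helper8.VT Pool.Agent.Helper8.UV
open Pool.Agent.Helper5.R4

/-- the number of bits of a weight -/
def sz (n : ℕ) : ℕ := 302 * (Nat.log 2 n + 1)

/-- the code of a weight -/
def cd (n : ℕ) (t : ℤ) : Fin (2 ^ sz n) :=
  Pool.Agent.Helper95.RV.code n (sz n) (Pool.Agent.Helper95.RV.size_ok n) t

theorem cd_inj {n : ℕ} {t t' : ℤ} (ht : |t| ≤ (n : ℤ) ^ 300) (ht' : |t'| ≤ (n : ℤ) ^ 300)
    (h : cd n t = cd n t') : t = t' := by
  rw [← Pool.Agent.Helper95.RV.dec_code n (sz n) (Pool.Agent.Helper95.RV.size_ok n) t ht,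
    ← Pool.Agent.Helper95.RV.dec_code n (sz n) (Pool.Agent.Helper95.RV.size_ok n) t' ht']
  exact congrArg _ h

/-- the code of a vertex -/
def ix (n : ℕ) (k : Fin n) : Fin (2 ^ (Nat.log 2 n + 1)) :=
  ⟨k, lt_trans k.isLt (Nat.lt_pow_succ_log_self (by norm_num) n)⟩

/-- the elements that Bob sends -/
abbrev Elt (n : ℕ) : Type := Fin (2 ^ (Nat.log 2 n + 1)) × Fin (2 ^ sz n)

/-- the hash functions -/
abbrev Hash (n s : ℕ) : Type := Fin (2 ^ sz n) → Fin (2 ^ s)

variable {n s : ℕ}

/-- the value that `w c k` must have to make a zero triangle with `j` -/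
def tv (c : Fin n) (C : Wts n) (p : Fin n × Fin n) : ℤ := -(C c p.1 + C p.1 p.2)

open Classical in
/-- the pairs whose value has the right hash value -/
noncomputable def pairs (c : Fin n) (C : Wts n) (ω : Hash n s) (hh : Fin n → Fin (2 ^ s)) :
    Finset (Fin n × Fin n) :=
  univ.filter fun p => (p.1 : ℕ) % 3 = 1 ∧ (p.2 : ℕ) % 3 = 2 ∧ |tv c C p| ≤ (n : ℤ) ^ 300 ∧
    ω (cd n (tv c C p)) = hh p.2

open Classical in
/-- the elements of Bob -/
noncomputable def bset (c : Fin n) (C : Wts n) (ω : Hash n s) (hh : Fin n → Fin (2 ^ s)) :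
    Finset (Elt n) :=
  (pairs c C ω hh).image fun p => (ix n p.2, cd n (tv c C p))

theorem mem_bset {c : Fin n} {C : Wts n} {ω : Hash n s} {hh : Fin n → Fin (2 ^ s)} {b : Elt n} :
    b ∈ bset c C ω hh ↔ ∃ p : Fin n × Fin n, ((p.1 : ℕ) % 3 = 1 ∧ (p.2 : ℕ) % 3 = 2 ∧
      |tv c C p| ≤ (n : ℤ) ^ 300 ∧ ω (cd n (tv c C p)) = hh p.2) ∧
      (ix n p.2, cd n (tv c C p)) = b := by
  unfold bset pairs
  rw [mem_image]
  simp only [mem_filter, mem_univ, true_and]

theorem bset_congr {c : Fin n} {C C' : Wts n} (ω : Hash n s) (hh : Fin n → Fin (2 ^ s))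
    (h : ∀ p : Fin n × Fin n, (p.1 : ℕ) % 3 = 1 → (p.2 : ℕ) % 3 = 2 → tv c C p = tv c C' p) :
    bset c C ω hh = bset c C' ω hh := by
  ext b
  rw [mem_bset, mem_bset]
  refine exists_congr fun p => ?_
  constructor
  · rintro ⟨⟨h1, h2, h3, h4⟩, h5⟩
    rw [h p h1 h2] at h3 h4 h5
    exact ⟨⟨h1, h2, h3, h4⟩, h5⟩
  · rintro ⟨⟨h1, h2, h3, h4⟩, h5⟩
    rw [← h p h1 h2] at h3 h4 h5
    exact ⟨⟨h1, h2, h3, h4⟩, h5⟩

/-- a list of at most `cap` elements -/
noncomputable def enc (cap : ℕ) (B : Finset (Elt n)) : Fin cap → Elt n := fun i =>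
  if h : (i : ℕ) < B.card then (B.equivFin.symm ⟨i, h⟩).val
  else (⟨0, by positivity⟩, ⟨0, by positivity⟩)

theorem enc_mem (cap : ℕ) (B : Finset (Elt n)) (i : Fin cap) :
    enc cap B i ∈ B ∨ ((enc cap B i).1 : ℕ) = 0 := by
  unfold enc
  by_cases h : (i : ℕ) < B.card
  · rw [dif_pos h]
    exact Or.inl (B.equivFin.symm ⟨i, h⟩).2
  · rw [dif_neg h]
    exact Or.inr rfl

theorem enc_surj {cap : ℕ} {B : Finset (Elt n)} (h : B.card ≤ cap) {b : Elt n} (hb : b ∈ B) :
    ∃ i, enc cap B i = b := by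
  have h1 := (B.equivFin ⟨b, hb⟩).isLt
  refine ⟨⟨B.equivFin ⟨b, hb⟩, lt_of_lt_of_le h1 h⟩, ?_⟩
  unfold enc
  rw [dif_pos h1]
  simp

/-- the hash values that Alice sends -/
def al (c : Fin n) (A : Wts n) (ω : Hash n s) : Fin n → Fin (2 ^ s) := fun k => ω (cd n (A c k))

open Classical in
/-- the vote of Alice -/
noncomputable def val (cap : ℕ) (c : Fin n) (A C : Wts n) (ω : Hash n s) : ℝ :=
  if ∃ (i : Fin cap) (k : Fin n), (k : ℕ) % 3 = 2 ∧
    enc cap (bset c C ω (al c A ω)) i = (ix n k, cd n (A c k))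
  then 1 else 0

theorem val_congr {cap : ℕ} {c : Fin n} {A A' C C' : Wts n} (ω : Hash n s)
    (hA : ∀ k, A c k = A' c k)
    (hC : ∀ p : Fin n × Fin n, (p.1 : ℕ) % 3 = 1 → (p.2 : ℕ) % 3 = 2 → tv c C p = tv c C' p) :
    val cap c A C ω = val cap c A' C' ω := by
  have h1 : al c A ω = al c A' ω := by
    funext k
    unfold al
    rw [hA k]
  unfold val
  rw [h1, bset_congr ω _ hC]
  simp only [hA]

theorem alice_row {c : Fin n} (hc : (c : ℕ) % 3 = 0) (w : Wts n) (k : Fin n) :
    aliceView w c k = w c k := by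
  unfold aliceView
  rw [if_neg]
  unfold Far
  omega

theorem near_tv {c c' : Fin n} (hc' : (c' : ℕ) % 3 = 0) (w : Wts n)
    (p : Fin n × Fin n) (h1 : (p.1 : ℕ) % 3 = 1) (h2 : (p.2 : ℕ) % 3 = 2) :
    tv c (nearView c' 2 w) p = tv c w p := by
  have e1 : nearView c' 2 w c p.1 = w c p.1 := by
    unfold nearView
    rw [if_neg]
    unfold Near
    omega
  have e2 : nearView c' 2 w p.1 p.2 = w p.1 p.2 := by
    unfold nearView
    rw [if_neg]
    rintro (h | h)
    · rw [h.1] at h1; omega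
    · rw [h.1] at h2; omega
  unfold tv
  rw [e1, e2]

theorem near_row {c c' : Fin n} (hc : (c : ℕ) % 3 = 0) (hne : c' ≠ c) (w : Wts n) (k : Fin n) :
    nearView c' 2 w c k = w c k := by
  unfold nearView
  rw [if_neg]
  rintro (h | h)
  · exact hne h.1.symm
  · omega

/-- the number of values of the message of Bob -/
noncomputable def msgEquiv (n cap : ℕ) :
    (Fin cap → Elt n) ≃ Fin (2 ^ (cap * (Nat.log 2 n + 1 + sz n))) :=
  Fintype.equivFinOfCardEq (by
    simp only [Fintype.card_fun, Fintype.card_prod, Fintype.card_fin]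
    rw [← pow_add, ← pow_mul]
    congr 1
    ring)

/-- the number of values of the message of Alice -/
noncomputable def hashEquiv (n s : ℕ) : (Fin n → Fin (2 ^ s)) ≃ Fin (2 ^ (n * s)) :=
  Fintype.equivFinOfCardEq (by
    simp only [Fintype.card_fun, Fintype.card_fin]
    rw [← pow_mul]
    congr 1
    ring)

theorem val_conv (cap : ℕ) (c : Fin n) (ω : Hash n s) :
    ∃ P : Conv n (n * s) (cap * (Nat.log 2 n + 1 + sz n)), ∀ A C,
      P.eval A C = val cap c A C ω := by
  classical
  obtain ⟨P, hP⟩ := twoMessages (n * s) (cap * (Nat.log 2 n + 1 + sz n))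
    (fun A => hashEquiv n s (al c A ω))
    (fun z C => msgEquiv n cap (enc cap (bset c C ω ((hashEquiv n s).symm z))))
    (fun A z => if ∃ (i : Fin cap) (k : Fin n), (k : ℕ) % 3 = 2 ∧
      (msgEquiv n cap).symm z i = (ix n k, cd n (A c k)) then 1 else 0)
  refine ⟨P, fun A C => ?_⟩
  rw [hP]
  simp only [Equiv.symm_apply_apply]
  rfl

/-- the vote is never wrongly positive -/
theorem sound {cap : ℕ} {c : Fin n} {w : Wts n} (hw : ∀ i j, |w i j| ≤ (n : ℤ) ^ 300)
    {ω : Hash n s} (h : 0 < val cap c w w ω) : ∃ j k : Fin n, (j : ℕ) % 3 = 1 ∧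
      (k : ℕ) % 3 = 2 ∧ w c j + w j k + w c k = 0 := by
  unfold val at h
  split_ifs at h with h1
  · obtain ⟨i, k, hk, e⟩ := h1
    rcases enc_mem cap (bset c w ω (al c w ω)) i with h2 | h2
    · rw [e, mem_bset] at h2
      obtain ⟨p, ⟨h3, h4, h5, h6⟩, h7⟩ := h2
      have h8 : p.2 = k := by
        have := congrArg (fun z => (z.1 : ℕ)) h7
        exact Fin.ext this
      have h9 : tv c w p = w c k := cd_inj h5 (hw c k) (congrArg Prod.snd h7)
      refine ⟨p.1, k, h3, hk, ?_⟩
      unfold tv at h9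
      rw [h8] at h9
      linarith
    · rw [e] at h2
      have : (k : ℕ) = 0 := h2
      omega
  · exact absurd h (lt_irrefl _)

/-- the vote is positive if the message of Bob is long enough -/
theorem complete {cap : ℕ} {c j k : Fin n} {w : Wts n} (hw : ∀ i j, |w i j| ≤ (n : ℤ) ^ 300)
    {ω : Hash n s} (hj : (j : ℕ) % 3 = 1) (hk : (k : ℕ) % 3 = 2)
    (h : w c j + w j k + w c k = 0) (hcap : (bset c w ω (al c w ω)).card ≤ cap) :
    val cap c w w ω = 1 := by
  have h1 : tv c w (j, k) = w c k := by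
    unfold tv
    simp only
    linarith
  have h2 : (ix n k, cd n (w c k)) ∈ bset c w ω (al c w ω) := by
    rw [mem_bset]
    refine ⟨(j, k), ⟨hj, hk, ?_, ?_⟩, ?_⟩
    · rw [h1]; exact hw c k
    · rw [h1]; rfl
    · rw [h1]
  obtain ⟨i, hi⟩ := enc_surj hcap h2
  unfold val
  rw [if_pos ⟨i, k, hk, hi⟩]

open Classical in
/-- the wrong pairs -/
noncomputable def fpairs (c : Fin n) (w : Wts n) (ω : Hash n s) : Finset (Fin n × Fin n) :=
  univ.filter fun p => cd n (tv c w p) ≠ cd n (w c p.2) ∧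
    ω (cd n (tv c w p)) = ω (cd n (w c p.2))

theorem bset_card (c : Fin n) (w : Wts n) (ω : Hash n s) :
    (bset c w ω (al c w ω)).card ≤ n + (fpairs c w ω).card := by
  classical
  have hsub : bset c w ω (al c w ω) ⊆ (univ.image fun k : Fin n => (ix n k, cd n (w c k))) ∪
      (fpairs c w ω).image fun p => (ix n p.2, cd n (tv c w p)) := by
    intro b hb
    rw [mem_bset] at hb
    obtain ⟨p, ⟨h1, h2, h3, h4⟩, h5⟩ := hb
    rw [mem_union]
    by_cases h6 : cd n (tv c w p) = cd n (w c p.2)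
    · left
      rw [mem_image]
      exact ⟨p.2, mem_univ _, by rw [← h5, h6]⟩
    · right
      rw [mem_image]
      exact ⟨p, mem_filter.2 ⟨mem_univ _, h6, h4⟩, h5⟩
  refine (card_le_card hsub).trans ((card_union_le _ _).trans (Nat.add_le_add ?_ card_image_le))
  refine card_image_le.trans ?_
  rw [card_univ, Fintype.card_fin]

theorem collide (x y : Fin (2 ^ sz n)) (hxy : x ≠ y) :
    2 ^ s * (univ.filter fun ω : Hash n s => ω x = ω y).card = Fintype.card (Hash n s) := by
  classical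
  have key := Pool.Agent.Helper62.EV.sum_update (ι := Fin (2 ^ sz n)) (V := Fin (2 ^ s)) x
    (fun ω => if ω x = ω y then (1 : ℝ) else 0)
  have h1 : ∀ ω : Hash n s, ∑ v : Fin (2 ^ s),
      (if Function.update ω x v x = Function.update ω x v y then (1 : ℝ) else 0) = 1 := by
    intro ω
    have : ∀ v : Fin (2 ^ s),
        (if Function.update ω x v x = Function.update ω x v y then (1 : ℝ) else 0) =
        if v = ω y then 1 else 0 := by
      intro v
      rw [Function.update_self, Function.update_of_ne hxy.symm]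
    simp_rw [this]
    rw [sum_ite_eq' univ (ω y)]
    simp
  simp_rw [h1] at key
  rw [sum_const, card_univ, nsmul_eq_mul, mul_one, sum_boole, Fintype.card_fin] at key
  have h2 : ((2 ^ s * (univ.filter fun ω : Hash n s => ω x = ω y).card : ℕ) : ℝ) =
      (Fintype.card (Hash n s) : ℝ) := by
    rw [key]
    push_cast
    ring
  exact_mod_cast h2

theorem sum_fpairs (c : Fin n) (w : Wts n) :
    2 ^ s * ∑ ω : Hash n s, (fpairs c w ω).card ≤ n ^ 2 * Fintype.card (Hash n s) := by
  classical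
  have h1 : ∀ ω : Hash n s, (fpairs c w ω).card = ∑ p : Fin n × Fin n,
      if (cd n (tv c w p) ≠ cd n (w c p.2) ∧ ω (cd n (tv c w p)) = ω (cd n (w c p.2))) then 1
        else 0 := by
    intro ω
    unfold fpairs
    rw [card_filter]
  simp_rw [h1]
  rw [sum_comm, mul_sum]
  have h2 : ∀ p : Fin n × Fin n, 2 ^ s * (∑ ω : Hash n s,
      if (cd n (tv c w p) ≠ cd n (w c p.2) ∧ ω (cd n (tv c w p)) = ω (cd n (w c p.2))) then 1
        else 0) ≤ Fintype.card (Hash n s) := by
    intro p
    by_cases hp : cd n (tv c w p) = cd n (w c p.2)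
    · rw [sum_eq_zero fun ω _ => if_neg fun h => h.1 hp, mul_zero]
      exact Nat.zero_le _
    · rw [← collide (s := s) _ _ hp]
      refine Nat.mul_le_mul_left _ ?_
      rw [card_filter]
      refine sum_le_sum fun ω _ => ?_
      by_cases h3 : ω (cd n (tv c w p)) = ω (cd n (w c p.2))
      · rw [if_pos ⟨hp, h3⟩, if_pos h3]
      · rw [if_neg fun h => h3 h.2]
        exact Nat.zero_le _
  refine (sum_le_sum fun p _ => h2 p).trans (le_of_eq ?_)
  rw [sum_const, card_univ, Fintype.card_prod, Fintype.card_fin, smul_eq_mul, sq]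

theorem few_bad (hs : 1 ≤ s) (hn : 2 ^ s ≤ n) (c : Fin n) (w : Wts n) :
    20 * (univ.filter fun ω : Hash n s => 30 * (n ^ 2 / 2 ^ s) < (fpairs c w ω).card).card ≤
      Fintype.card (Hash n s) := by
  classical
  have h2 := sum_fpairs (s := s) c w
  generalize hT : Fintype.card (Hash n s) = T at h2 ⊢
  generalize hN : n ^ 2 / 2 ^ s = N
  generalize hb : (univ.filter fun ω : Hash n s => 30 * N < (fpairs c w ω).card).card = b
  have h2s : 2 ≤ 2 ^ s := by
    calc 2 = 2 ^ 1 := rfl
      _ ≤ 2 ^ s := Nat.pow_le_pow_right (by norm_num) hs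
  have hNn : n ≤ N := by
    rw [← hN, Nat.le_div_iff_mul_le (by positivity), sq]
    exact Nat.mul_le_mul_left _ hn
  have hN2 : 2 ≤ N := h2s.trans (hn.trans hNn)
  have h1 : 30 * N * b ≤ ∑ ω : Hash n s, (fpairs c w ω).card := by
    calc 30 * N * b = ∑ ω ∈ univ.filter (fun ω : Hash n s =>
          30 * N < (fpairs c w ω).card), 30 * N := by
          rw [sum_const, smul_eq_mul, hb]; ring
      _ ≤ ∑ ω ∈ univ.filter (fun ω : Hash n s =>
          30 * N < (fpairs c w ω).card), (fpairs c w ω).card :=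
          sum_le_sum fun ω hω => by
            simp only [mem_filter, mem_univ, true_and] at hω
            exact Nat.le_of_lt hω
      _ ≤ _ := sum_le_sum_of_subset (subset_univ _)
  have h3 : n ^ 2 ≤ (N + 1) * 2 ^ s := by
    rw [← hN]
    have := Nat.lt_div_mul_add (a := n ^ 2) (b := 2 ^ s) (by positivity)
    nlinarith
  have h4 : 2 ^ s * (30 * N * b) ≤ 2 ^ s * ((N + 1) * T) := by
    calc 2 ^ s * (30 * N * b) ≤ 2 ^ s * ∑ ω : Hash n s, (fpairs c w ω).card :=
          Nat.mul_le_mul_left _ h1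
      _ ≤ n ^ 2 * T := h2
      _ ≤ (N + 1) * 2 ^ s * T := Nat.mul_le_mul_right _ h3
      _ = _ := by ring
  have h5 : 30 * N * b ≤ (N + 1) * T := Nat.le_of_mul_le_mul_left h4 (by positivity)
  have h6 : 3 * N * (20 * b) ≤ 3 * N * T := by
    have h8 : 2 * (N + 1) ≤ 3 * N := by linarith
    have h7 : (2 * (N + 1)) * T ≤ (3 * N) * T := Nat.mul_le_mul_right _ h8
    linarith
  exact Nat.le_of_mul_le_mul_left h6 (by linarith)

/-- **The converse.** -/
theorem upper (n s : ℕ) (hs : 1 ≤ s) (hn : 2 ^ s ≤ n) :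
    ∃ (Ω : Type) (_ : Fintype Ω) (_ : Nonempty Ω) (H : Ω → Fin n → Inst n → ℝ),
      (∀ ω (r : Fin n), (r : ℕ) % 3 = 0 → IsConv r (n * s)
        (9393 * (n ^ 2 / 2 ^ s) * (Nat.log 2 n + 1)) (H ω r)) ∧
      (∀ ω (r c : Fin n), (c : ℕ) % 3 = 0 → c ≠ r → IsFree c (H ω r)) ∧
      ∀ I : Inst n, I.Valid → Tripartite I → Decides H I := by
  classical
  obtain ⟨N, hN⟩ : ∃ N, N = n ^ 2 / 2 ^ s := ⟨_, rfl⟩
  obtain ⟨cap, hcap⟩ : ∃ cap, cap = 31 * N := ⟨_, rfl⟩
  have hNn : n ≤ N := by
    rw [hN, Nat.le_div_iff_mul_le (by positivity), sq]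
    exact Nat.mul_le_mul_left _ hn
  have hbits : 9393 * (n ^ 2 / 2 ^ s) * (Nat.log 2 n + 1) = cap * (Nat.log 2 n + 1 + sz n) := by
    rw [hcap, ← hN]
    unfold sz
    ring
  have : Nonempty (Hash n s) := ⟨fun _ => ⟨0, by positivity⟩⟩
  have hval : ∀ (ω : Hash n s) (r : Fin n), (r : ℕ) % 3 = 0 → ∀ w : Wts n,
      val cap r (aliceView w) (nearView r 2 w) ω = val cap r w w ω := fun ω r hr w =>
    val_congr ω (fun k => alice_row hr w k) (fun p h1 h2 => near_tv hr w p h1 h2)
  refine ⟨Hash n s, inferInstance, this, fun ω r I =>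
    if (r : ℕ) % 3 = 0 then val cap r (aliceView I.wt) (nearView r 2 I.wt) ω else 0, ?_, ?_, ?_⟩
  · intro ω r hr
    obtain ⟨P, hP⟩ := val_conv (s := s) cap r ω
    rw [hbits]
    refine ⟨fun _ => P, fun I _ => ?_⟩
    rw [hP]
    simp only [if_pos hr]
  · intro ω r c hc hne
    refine ⟨fun _ w => if (r : ℕ) % 3 = 0 then
      val cap r (aliceView w) (nearView r 2 w) ω else 0, Or.inr (Or.inl fun I _ => ?_)⟩
    by_cases hr : (r : ℕ) % 3 = 0
    · simp only [if_pos hr]
      rw [hval ω r hr, hval ω r hr]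
      exact (val_congr ω (fun k => near_row hr hne I.wt k)
        (fun p h1 h2 => near_tv hc I.wt p h1 h2)).symm
    · simp only [if_neg hr]
  · intro I hI hT
    have hw := hI.2.2.2
    have hH : ∀ (ω : Hash n s) (r : Fin n),
        (if (r : ℕ) % 3 = 0 then val cap r (aliceView I.wt) (nearView r 2 I.wt) ω else 0) =
        if (r : ℕ) % 3 = 0 then val cap r I.wt I.wt ω else 0 := by
      intro ω r
      by_cases hr : (r : ℕ) % 3 = 0
      · rw [if_pos hr, if_pos hr, hval ω r hr]
      · rw [if_neg hr, if_neg hr]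
    have hnn : ∀ (ω : Hash n s) (r : Fin n), 0 ≤
        (if (r : ℕ) % 3 = 0 then val cap r I.wt I.wt ω else 0) := by
      intro ω r
      unfold val
      split_ifs <;> norm_num
    unfold Decides
    simp_rw [hH]
    by_cases hY : I.Yes
    · obtain ⟨c, j, k, hc, hj, hk, e⟩ :=
        (Pool.Agent.Helper95.RV.yes_iff I hI hT).1 hY
      have hbad := few_bad (s := s) hs hn c I.wt
      have hcard := card_filter_add_card_filter_not (s := (univ : Finset (Hash n s)))
        (fun ω => 30 * (n ^ 2 / 2 ^ s) < (fpairs c I.wt ω).card)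
      rw [card_univ] at hcard
      have hle : (univ.filter fun ω : Hash n s =>
          ¬ 30 * (n ^ 2 / 2 ^ s) < (fpairs c I.wt ω).card).card ≤
          (univ.filter fun ω : Hash n s => (0 < ∑ r : Fin n,
            (if (r : ℕ) % 3 = 0 then val cap r I.wt I.wt ω else 0) ↔ I.Yes)).card := by
        refine card_le_card fun ω hω => ?_
        simp only [mem_filter, mem_univ, true_and, not_lt] at hω ⊢
        refine iff_of_true ?_ hY
        have h1 : (bset c I.wt ω (al c I.wt ω)).card ≤ cap := by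
          refine (bset_card c I.wt ω).trans ?_
          rw [← hN] at hω
          rw [hcap]
          linarith
        have h2 := complete hw hj hk e h1
        refine sum_pos' (fun r _ => hnn ω r) ⟨c, mem_univ _, ?_⟩
        rw [if_pos hc, h2]
        norm_num
      linarith
    · have hle : (univ.filter fun ω : Hash n s => (0 < ∑ r : Fin n,
            (if (r : ℕ) % 3 = 0 then val cap r I.wt I.wt ω else 0) ↔ I.Yes)) = univ := by
        refine filter_true_of_mem fun ω _ => ?_
        refine iff_of_false (fun hpos => hY ?_) hY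
        by_contra hno
        refine absurd hpos (not_lt.2 (le_of_eq (sum_eq_zero fun r _ => ?_)))
        by_cases hr : (r : ℕ) % 3 = 0
        · rw [if_pos hr]
          by_contra hne
          have hpos' : 0 < val cap r I.wt I.wt ω := by
            have := hnn ω r
            rw [if_pos hr] at this
            exact lt_of_le_of_ne this (Ne.symm hne)
          obtain ⟨j, k, hj, hk, e⟩ := sound hw hpos'
          exact hno ((Pool.Agent.Helper95.RV.yes_iff I hI hT).2 ⟨r, j, k, hr, hj, hk, e⟩)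
        · rw [if_neg hr]
      rw [hle, card_univ]
      linarith

end Pool.Agent.Helper95.R4
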